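import Pool.Agent.Helper57.SS.Goals

/-!
# Project SS, packet LF1: the first bound for the limit functional
-/

set_option autoImplicit false

namespace Pool.Agent.Helper48.SS

open MeasureTheory ProbabilityTheory Filter Topology Pool.Agent.Helper57.SS
open scoped ComplexConjugate

section

variable {α : Type} [MeasurableSpace α]

theorem bd_mul {f g : α → ℝ} (hf : Bd f) (hg : Bd g) : Bd fun x => f x * g x := by
  refine ⟨hf.1.mul hg.1, fun x => ?_⟩
  rw [abs_mul]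
  exact mul_le_one₀ (hf.2 x) (abs_nonneg _) (hg.2 x)

theorem bd_comp {f : α → ℝ} (hf : Bd f) {u : α → α} (hu : Measurable u) : Bd fun x => f (u x) :=
  ⟨hf.1.comp hu, fun x => hf.2 (u x)⟩

theorem bd_int {f : α → ℝ} (hf : Bd f) (μ : Measure α) [IsProbabilityMeasure μ] :
    Integrable f μ :=
  Integrable.of_bound hf.1.aestronglyMeasurable 1 (Eventually.of_forall fun x => hf.2 x)

theorem norm_sq_sum {ι : Type} (s : Finset ι) (c : ι → ℂ) (w : ι → ℝ) :
    ‖∑ p ∈ s, c p * ((w p : ℝ) : ℂ)‖ ^ 2 =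
      ∑ p ∈ s, ∑ q ∈ s, (c p * conj (c q)).re * (w p * w q) := by
  have h1 : ((‖∑ p ∈ s, c p * ((w p : ℝ) : ℂ)‖ ^ 2 : ℝ) : ℂ) =
      ∑ p ∈ s, ∑ q ∈ s, (c p * conj (c q)) * ((w p * w q : ℝ) : ℂ) := by
    rw [← Complex.normSq_eq_norm_sq, ← Complex.mul_conj, map_sum, Finset.sum_mul_sum]
    refine Finset.sum_congr rfl fun p _ => Finset.sum_congr rfl fun q _ => ?_
    rw [map_mul, Complex.conj_ofReal, Complex.ofReal_mul]
    ring
  have h2 := congrArg Complex.re h1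
  rw [Complex.ofReal_re, Complex.re_sum] at h2
  rw [h2]
  refine Finset.sum_congr rfl fun p _ => ?_
  rw [Complex.re_sum]
  refine Finset.sum_congr rfl fun q _ => ?_
  rw [Complex.re_mul_ofReal]

theorem one_stage {ι : Type} (μ : Measure α) [IsProbabilityMeasure μ] (s : Finset ι) (c : ι → ℂ)
    (w : ι → α → ℝ) (hw : ∀ p, Bd (w p)) (h : α → ℝ) (hh : Bd h) :
    ‖∑ p ∈ s, c p * ((∫ x, h x * w p x ∂μ : ℝ) : ℂ)‖ ^ 2 ≤
      ∑ p ∈ s, ∑ q ∈ s, (c p * conj (c q)).re * ∫ x, w p x * w q x ∂μ := by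
  set z : ℂ := ∑ p ∈ s, c p * ((∫ x, h x * w p x ∂μ : ℝ) : ℂ) with hz
  -- the right hand side is the integral of `‖Φ‖²`
  have hI : ∀ p q, Integrable (fun x => w p x * w q x) μ := fun p q => bd_int (bd_mul (hw p) (hw q)) μ
  have hJ : ∀ p, Integrable (fun x => h x * w p x) μ := fun p => bd_int (bd_mul hh (hw p)) μ
  have hR : ∑ p ∈ s, ∑ q ∈ s, (c p * conj (c q)).re * ∫ x, w p x * w q x ∂μ =
      ∫ x, ‖∑ p ∈ s, c p * ((w p x : ℝ) : ℂ)‖ ^ 2 ∂μ := by
    simp only [norm_sq_sum]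
    rw [integral_finsetSum _ fun p _ => integrable_finsetSum _ fun q _ => (hI p q).const_mul _]
    refine Finset.sum_congr rfl fun p _ => ?_
    rw [integral_finsetSum _ fun q _ => (hI p q).const_mul _]
    refine Finset.sum_congr rfl fun q _ => ?_
    rw [integral_const_mul]
  have hRi : Integrable (fun x => ‖∑ p ∈ s, c p * ((w p x : ℝ) : ℂ)‖ ^ 2) μ := by
    simp only [norm_sq_sum]
    exact integrable_finsetSum _ fun p _ => integrable_finsetSum _ fun q _ =>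
      (hI p q).const_mul _
  -- duality
  have hL : ‖z‖ ^ 2 = ∫ x, h x * (conj z * ∑ p ∈ s, c p * ((w p x : ℝ) : ℂ)).re ∂μ := by
    have h1 : ∀ x, h x * (conj z * ∑ p ∈ s, c p * ((w p x : ℝ) : ℂ)).re =
        ∑ p ∈ s, (conj z * c p).re * (h x * w p x) := by
      intro x
      rw [Finset.mul_sum, Complex.re_sum, Finset.mul_sum]
      refine Finset.sum_congr rfl fun p _ => ?_
      rw [← mul_assoc, Complex.re_mul_ofReal]
      ring
    simp only [h1]
    rw [integral_finsetSum _ fun p _ => (hJ p).const_mul _]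
    have h2 : ‖z‖ ^ 2 = (conj z * z).re := by
      rw [← Complex.normSq_eq_norm_sq, mul_comm, Complex.mul_conj, Complex.ofReal_re]
    rw [h2]
    conv_lhs => rw [hz]
    rw [Finset.mul_sum, Complex.re_sum]
    refine Finset.sum_congr rfl fun p _ => ?_
    rw [integral_const_mul, ← mul_assoc, Complex.re_mul_ofReal]
  have hLi : Integrable (fun x => h x * (conj z * ∑ p ∈ s, c p * ((w p x : ℝ) : ℂ)).re) μ := by
    have h1 : ∀ x, h x * (conj z * ∑ p ∈ s, c p * ((w p x : ℝ) : ℂ)).re =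
        ∑ p ∈ s, (conj z * c p).re * (h x * w p x) := by
      intro x
      rw [Finset.mul_sum, Complex.re_sum, Finset.mul_sum]
      refine Finset.sum_congr rfl fun p _ => ?_
      rw [← mul_assoc, Complex.re_mul_ofReal]
      ring
    simp only [h1]
    exact integrable_finsetSum _ fun p _ => (hJ p).const_mul _
  have hle : ‖z‖ ^ 2 ≤ ∫ x, (‖z‖ ^ 2 / 2 + ‖∑ p ∈ s, c p * ((w p x : ℝ) : ℂ)‖ ^ 2 / 2) ∂μ := by
    conv_lhs => rw [hL]
    refine integral_mono hLi ((integrable_const _).add (hRi.div_const 2)) fun x => ?_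
    have h1 := hh.2 x
    have h2 : |(conj z * ∑ p ∈ s, c p * ((w p x : ℝ) : ℂ)).re| ≤
        ‖z‖ * ‖∑ p ∈ s, c p * ((w p x : ℝ) : ℂ)‖ := by
      refine (Complex.abs_re_le_norm _).trans ?_
      rw [norm_mul, RCLike.norm_conj]
    have h3 : h x * (conj z * ∑ p ∈ s, c p * ((w p x : ℝ) : ℂ)).re ≤
        ‖z‖ * ‖∑ p ∈ s, c p * ((w p x : ℝ) : ℂ)‖ := by
      refine (le_abs_self _).trans ?_
      rw [abs_mul]
      calc |h x| * |(conj z * ∑ p ∈ s, c p * ((w p x : ℝ) : ℂ)).re|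
          ≤ 1 * |(conj z * ∑ p ∈ s, c p * ((w p x : ℝ) : ℂ)).re| :=
            mul_le_mul_of_nonneg_right h1 (abs_nonneg _)
        _ ≤ _ := by rw [one_mul]; exact h2
    refine h3.trans ?_
    change _ ≤ ‖z‖ ^ 2 / 2 + ‖∑ p ∈ s, c p * ((w p x : ℝ) : ℂ)‖ ^ 2 / 2
    nlinarith [sq_nonneg (‖z‖ - ‖∑ p ∈ s, c p * ((w p x : ℝ) : ℂ)‖)]
  rw [integral_add (integrable_const _) (hRi.div_const 2), integral_const, integral_div] at hle
  rw [hR]
  simp only [probReal_univ, smul_eq_mul, one_mul] at hle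
  linarith

theorem average_sq (N : ℕ) (z : ℕ → ℂ) (r : ℕ → ℝ) (h : ∀ k, ‖z k‖ ^ 2 ≤ r k) :
    ‖(N : ℂ)⁻¹ * ∑ k ∈ Finset.range N, z k‖ ^ 2 ≤ (N : ℝ)⁻¹ * ∑ k ∈ Finset.range N, r k := by
  rcases Nat.eq_zero_or_pos N with rfl | hN
  · simp
  have hN' : (0 : ℝ) < N := by exact_mod_cast hN
  have h1 : ‖∑ k ∈ Finset.range N, z k‖ ^ 2 ≤ N * ∑ k ∈ Finset.range N, r k := by
    calc ‖∑ k ∈ Finset.range N, z k‖ ^ 2 ≤ (∑ k ∈ Finset.range N, ‖z k‖) ^ 2 :=
          pow_le_pow_left₀ (norm_nonneg _) (norm_sum_le _ _) 2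
      _ ≤ (Finset.range N).card * ∑ k ∈ Finset.range N, ‖z k‖ ^ 2 := sq_sum_le_card_mul_sum_sq
      _ ≤ _ := by
        rw [Finset.card_range]
        exact mul_le_mul_of_nonneg_left (Finset.sum_le_sum fun k _ => h k) hN'.le
  rw [norm_mul, mul_pow, norm_inv, Complex.norm_natCast]
  calc ((N : ℝ)⁻¹) ^ 2 * ‖∑ k ∈ Finset.range N, z k‖ ^ 2
      ≤ ((N : ℝ)⁻¹) ^ 2 * (N * ∑ k ∈ Finset.range N, r k) :=
        mul_le_mul_of_nonneg_left h1 (by positivity)
    _ = _ := by field_simp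

end

theorem gLF1 : G_LF1 := by
  intro hE3 hEL hHZ hZP hVN α _ μ _ T S R a b f g U Nj h φ r hL c
  obtain ⟨-, -, -, hadd, hmeas, hmp, -⟩ := hZP α R
  set s := c.support with hs
  -- the functions of one stage
  set w : ℕ → ℤ × ℤ → α → ℝ := fun k p x =>
    f (zp R p.1 ((⇑T)^[a k] x)) * g (zp R p.2 ((⇑S)^[b k] x)) with hw
  have hwB : ∀ k p, Bd (w k p) := by
    intro k p
    exact bd_mul (bd_comp (bd_comp hL.hf (hmeas p.1)) (T.measurable.iterate (a k)))
      (bd_comp (bd_comp hL.hg (hmeas p.2)) (S.measurable.iterate (b k)))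
  set K : ℤ × ℤ → ℤ × ℤ → ℝ := fun p q => (c p * conj (c q)).re with hK
  -- the bound for all `N` and `H`
  have hbound : ∀ (N : ℕ) (H : α → ℝ), Bd H →
      ‖∑ p ∈ s, c p * ((PhN T S R μ a b f g H N p : ℝ) : ℂ)‖ ^ 2 ≤
        ∑ p ∈ s, ∑ q ∈ s, K p q * ((N : ℝ)⁻¹ * ∑ k ∈ Finset.range N,
          ∫ x, w k p x * w k q x ∂μ) := by
    intro N H hH
    have h1 : ∑ p ∈ s, c p * ((PhN T S R μ a b f g H N p : ℝ) : ℂ) =
        (N : ℂ)⁻¹ * ∑ k ∈ Finset.range N, ∑ p ∈ s, c p * ((∫ x, H x * w k p x ∂μ : ℝ) : ℂ) := by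
      rw [Finset.sum_comm, Finset.mul_sum]
      refine Finset.sum_congr rfl fun p _ => ?_
      unfold PhN
      rw [← Finset.mul_sum, Complex.ofReal_mul, Complex.ofReal_sum, Complex.ofReal_inv,
        Complex.ofReal_natCast]
      have h2 : ∀ k, ∫ x, H x * f (zp R p.1 ((⇑T)^[a k] x)) * g (zp R p.2 ((⇑S)^[b k] x)) ∂μ =
          ∫ x, H x * w k p x ∂μ := by
        intro k
        refine integral_congr_ae (Eventually.of_forall fun x => ?_)
        simp only [hw]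
        ring
      simp only [h2]
      ring
    have h3 : ∑ p ∈ s, ∑ q ∈ s, K p q * ((N : ℝ)⁻¹ * ∑ k ∈ Finset.range N,
          ∫ x, w k p x * w k q x ∂μ) = (N : ℝ)⁻¹ * ∑ k ∈ Finset.range N, ∑ p ∈ s, ∑ q ∈ s,
            K p q * ∫ x, w k p x * w k q x ∂μ := by
      simp only [Finset.mul_sum]
      rw [Finset.sum_comm (s := Finset.range N) (t := s)]
      refine Finset.sum_congr rfl fun p _ => ?_
      rw [Finset.sum_comm (s := Finset.range N) (t := s)]
      refine Finset.sum_congr rfl fun q _ => Finset.sum_congr rfl fun k _ => ?_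
      ring
    rw [h1, h3]
    exact average_sq N _ _ fun k => one_stage μ s c (w k) (hwB k) H hH
  -- the limit of the right hand side
  have hrr : ∀ (F : α → ℝ), Bd F → ∀ m n : ℤ,
      ∫ y, F (zp R m y) * F (zp R n y) ∂μ = rr R μ F (m - n) := by
    intro F hF m n
    unfold rr
    have h1 := (hmp μ hL.hs.mR n).map_eq
    have h2 : ∫ y, F (zp R m y) * F (zp R n y) ∂μ =
        ∫ y, (fun x => F (zp R (m - n) x) * F x) (zp R n y) ∂μ := by
      refine integral_congr_ae (Eventually.of_forall fun y => ?_)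
      simp only
      rw [← hadd (m - n) n y, sub_add_cancel]
    have h3 : Measurable fun x => F (zp R (m - n) x) * F x :=
      (hF.1.comp (hmeas (m - n))).mul hF.1
    have h4 := integral_map (μ := μ) (hmeas n).aemeasurable
      (f := fun x => F (zp R (m - n) x) * F x) h3.aestronglyMeasurable
    rw [h2, ← h4, h1]
  have hlim : Tendsto (fun N : ℕ => ∑ p ∈ s, ∑ q ∈ s, K p q * ((N : ℝ)⁻¹ *
      ∑ k ∈ Finset.range N, ∫ x, w k p x * w k q x ∂μ)) atTop
      (𝓝 (∑ p ∈ s, ∑ q ∈ s, K p q * (rr R μ f (p.1 - q.1) * rr R μ g (p.2 - q.2)))) := by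
    refine tendsto_finsetSum _ fun p _ => tendsto_finsetSum _ fun q _ => Tendsto.const_mul _ ?_
    have h1 := hE3 hEL hHZ hZP hVN a b hL.hW α μ T S hL.hs.eT hL.hs.eS hL.hs.cTS
      (fun y => f (zp R p.1 y) * f (zp R q.1 y)) (fun y => g (zp R p.2 y) * g (zp R q.2 y))
      (bd_mul (bd_comp hL.hf (hmeas p.1)) (bd_comp hL.hf (hmeas q.1)))
      (bd_mul (bd_comp hL.hg (hmeas p.2)) (bd_comp hL.hg (hmeas q.2)))
    rw [hrr f hL.hf, hrr g hL.hg] at h1
    refine h1.congr fun N => ?_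
    congr 1
    refine Finset.sum_congr rfl fun k _ => ?_
    refine integral_congr_ae (Eventually.of_forall fun x => ?_)
    simp only [hw]
    ring
  have hleft : Tendsto (fun j => ‖∑ p ∈ s, c p * ((PhN T S R μ a b f g (h j) (Nj j) p : ℝ) : ℂ)‖ ^ 2)
      U (𝓝 (‖∑ p ∈ s, c p * ((φ p : ℝ) : ℂ)‖ ^ 2)) := by
    refine ((tendsto_finsetSum _ fun p _ => Tendsto.const_mul _ ?_).norm).pow 2
    exact (Complex.continuous_ofReal.tendsto _).comp (hL.hφ p)
  have hfin := le_of_tendsto_of_tendsto' hleft (hlim.comp hL.hN)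
    fun j => hbound (Nj j) (h j) (hL.hh j)
  refine le_trans (le_of_eq ?_) (hfin.trans (le_of_eq ?_))
  · rfl
  · unfold Finsupp.sum
    rw [Complex.re_sum]
    refine Finset.sum_congr rfl fun p _ => ?_
    rw [Complex.re_sum]
    refine Finset.sum_congr rfl fun q _ => ?_
    rw [Complex.re_mul_ofReal]

end Pool.Agent.Helper48.SS
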